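import Pool.Agent.Helper45.AE.Lift2

/-!
# Corner-free sets in `(F_2^n)^2` obtained from lifts and from additive equations

Let `π` be a homomorphism from an abelian group `B` to `F_2^n`, and let `P`, `Q`, `R` be finite
subsets of `B`. The set `E` of the points `(π p, π q)` with `p ∈ P`, `q ∈ Q` and `p + q ∈ R` is obtained
by lifting the corner problem to `B`. An example are the sets
`E = {(x, y) : F(x) + G(y) + H(x + y) = 0}`, where `F, G, H` are arbitrary functions from `F_2^n` to an
arbitrary abelian group. The known constructions of large corner-free sets use sets of these kinds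
(equations between norms, vectors of the same length in `ℤ^n` above the points, tight supports). We
show that such a set `E` of density `δ` contains a box `{(x, y) : x ∈ X, y ∈ Y, x + y ∈ Z}` whose
density is polynomial in `δ`, and a polynomial proportion of all corners; and that the power-saving
bound holds for all corner-free sets which are covered by `2^(c n)` sets of this kind, up to few points
of the latter. There is no restriction on the group, on the homomorphism, on the functions, or on the
number of their values.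

Proof. One first reduces to additive equations. By the Cauchy-Schwarz inequality the graph of `F`,
over a suitable set of `x`, has a large additive energy; by the Balog-Szemerédi-Gowers theorem a large
part of the graph has small doubling. By the Plünnecke inequality `2 F` takes few values there, and by
the theorem of Gowers, Green, Manners and Tao (formerly Marton's conjecture) in characteristic two, `F`
is affine on a large set. This is done for `F`, `G` and `H`. When all three functions are affine, a
linear map takes few values on the remaining part of `E`, and one fixes its value. Corner-free boxes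
are small by the slice rank method. Pulling `E` back along random affine maps gives many corners.
-/

set_option autoImplicit false

namespace Pool.Agent.Results.MP_db4732_co.LiftedSets

open Finset

/-- `F_2^n` -/
abbrev V (n : ℕ) := Fin n → ZMod 2

/-- `A ⊆ (F_2^n)^2` contains no nontrivial corner `(x, y), (x, y + z), (x + z, y)`, `z ≠ 0`. -/
def CornerFree {n : ℕ} (A : Finset (V n × V n)) : Prop :=
  ∀ x y z : V n, (x, y) ∈ A → (x, y + z) ∈ A → (x + z, y) ∈ A → z = 0

/-- The number of all triples `(x, y, z)` with `(x, y), (x, y + z), (x + z, y) ∈ A`; the trivial ones,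
with `z = 0`, are counted. -/
def corners {n : ℕ} (A : Finset (V n × V n)) : ℕ :=
  #{t : V n × V n × V n | (t.1, t.2.1) ∈ A ∧ (t.1, t.2.1 + t.2.2) ∈ A ∧ (t.1 + t.2.2, t.2.1) ∈ A}

/-- the density of `E` in `(F_2^n)^2` -/
noncomputable def density {n : ℕ} (E : Finset (V n × V n)) : ℝ := (#E : ℝ) / 4 ^ n

/-- `{(x, y) : x ∈ X, y ∈ Y, x + y ∈ Z}` -/
def box {n : ℕ} (X Y Z : Finset (V n)) : Finset (V n × V n) :=
  univ.filter fun p => p.1 ∈ X ∧ p.2 ∈ Y ∧ p.1 + p.2 ∈ Z

/-- For some homomorphism `π` from an abelian group `B` to `F_2^n` and some subsets `P`, `Q`, `R` of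
`B` with at most `M 2^n` elements each, `E` consists of the points `(π p, π q)` with `p ∈ P`, `q ∈ Q`
and `p + q ∈ R`. -/
def IsLifted {n : ℕ} (M : ℝ) (E : Finset (V n × V n)) : Prop :=
  ∃ (B : Type) (_ : AddCommGroup B) (π : B →+ V n) (P Q R : Finset B),
    (#P : ℝ) ≤ M * 2 ^ n ∧ (#Q : ℝ) ≤ M * 2 ^ n ∧ (#R : ℝ) ≤ M * 2 ^ n ∧
      ∀ x y, (x, y) ∈ E ↔ ∃ p ∈ P, ∃ q ∈ Q, p + q ∈ R ∧ π p = x ∧ π q = y

/-- `E` is the set of the solutions of an equation `F(x) + G(y) + H(x + y) = 0`, where `F`, `G`, `H`
are arbitrary functions from `F_2^n` to an arbitrary abelian group. -/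
def IsAdditive {n : ℕ} (E : Finset (V n × V n)) : Prop :=
  ∃ (K : Type) (_ : AddCommGroup K) (F G H : V n → K),
    ∀ x y, (x, y) ∈ E ↔ F x + G y + H (x + y) = 0

/-- **Corners in lifted sets.** There is an absolute constant `C` with the following properties.
Let `M ≥ 1`, and let `E ⊆ (F_2^n)^2` be obtained by means of a homomorphism from an abelian group to
`F_2^n` from three subsets of this group with at most `M 2^n` elements each; for instance, with
`M = 1`, let `E` be the set of the solutions of an equation `F(x) + G(y) + H(x + y) = 0` with arbitrary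
functions `F`, `G`, `H` from `F_2^n` to an arbitrary abelian group. Let `δ` be the density of `E`.
(1) `E` contains a box `{(x, y) : x ∈ X, y ∈ Y, x + y ∈ Z}` of density at least `(δ / (2 M))^C`, and `E`
has at least `(δ / (2 M))^C 8^n` corners.
(2) If a corner-free set `A` is covered by `T` such sets, with at most `s` points outside of `A` each,
then `|A| ≤ 2 T M 4^n ((3 s + 2^n) / 4^n)^(1/C)`. For `s = 0`, that is, if a corner-free set `A` is a
union of `T` such sets, this is `|A| ≤ 2 T M 4^((1 - 1/(2 C)) n)`. -/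
theorem result : ∃ C : ℕ, 0 < C ∧
    (∀ (n : ℕ) (E : Finset (V n × V n)), IsAdditive E → IsLifted 1 E) ∧
    (∀ (n : ℕ) (M : ℝ) (E : Finset (V n × V n)), 1 ≤ M → IsLifted M E →
      (∃ X Y Z : Finset (V n), box X Y Z ⊆ E ∧
        (density E / (2 * M)) ^ C * 4 ^ n ≤ #(box X Y Z)) ∧
      (density E / (2 * M)) ^ C * 8 ^ n ≤ corners E) ∧
    (∀ (n T : ℕ) (M s : ℝ) (A : Finset (V n × V n)) (E : Fin T → Finset (V n × V n)),
      1 ≤ M → CornerFree A → (∀ i, IsLifted M (E i)) → (∀ i, (#(E i \ A) : ℝ) ≤ s) →
      (∀ p ∈ A, ∃ i, p ∈ E i) →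
      (#A : ℝ) ≤ 2 * T * M * 4 ^ n * ((3 * s + 2 ^ n) / 4 ^ n) ^ (1 / (C : ℝ))) ∧
    (∀ (n T : ℕ) (M : ℝ) (A : Finset (V n × V n)) (E : Fin T → Finset (V n × V n)),
      1 ≤ M → CornerFree A → (∀ i, IsLifted M (E i)) → (∀ p, p ∈ A ↔ ∃ i, p ∈ E i) →
      (#A : ℝ) ≤ 2 * T * M * 4 ^ ((1 - 1 / (2 * (C : ℝ))) * n)) := by
  classical
  have h3 : ∀ (n T : ℕ) (M s : ℝ) (A : Finset (V n × V n)) (E : Fin T → Finset (V n × V n)),
      1 ≤ M → CornerFree A → (∀ i, IsLifted M (E i)) → (∀ i, (#(E i \ A) : ℝ) ≤ s) →
      (∀ p ∈ A, ∃ i, p ∈ E i) →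
      (#A : ℝ) ≤ 2 * T * M * 4 ^ n *
        ((3 * s + 2 ^ n) / 4 ^ n) ^ (1 / (Pool.Agent.Helper45.AE.bigC : ℝ)) := by
    intro n T M s A E hM hA hE hs hcov
    have h1 : A ⊆ univ.biUnion E := fun p hp => by
      obtain ⟨i, hi⟩ := hcov p hp
      exact mem_biUnion.2 ⟨i, mem_univ _, hi⟩
    have h2 : (#A : ℝ) ≤ ∑ i, (#(E i) : ℝ) := by
      have := (Finset.card_le_card h1).trans Finset.card_biUnion_le
      exact_mod_cast this
    refine h2.trans ((Finset.sum_le_sum fun i _ =>
      Pool.Agent.Helper45.AE.lift_bound' A (E i) M hM hA (hE i) s (hs i)).trans (le_of_eq ?_))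
    rw [Finset.sum_const, Finset.card_univ, Fintype.card_fin, nsmul_eq_mul]
    ring
  refine ⟨Pool.Agent.Helper45.AE.bigC, Pool.Agent.Helper45.AE.bigC_pos, ?_, ?_, h3, ?_⟩
  · intro n E hE
    exact Pool.Agent.Helper45.AE.isLifted_of_additive E hE
  · intro n M E hM hE
    exact ⟨Pool.Agent.Helper45.AE.lift_box E M hM hE, Pool.Agent.Helper45.AE.lift_corners E M hM hE⟩
  · intro n T M A E hM hA hE hAE
    have h4 := h3 n T M 0 A E hM hA hE (fun i => by
      have : E i \ A = ∅ := sdiff_eq_empty_iff_subset.2 fun p hp => (hAE p).2 ⟨i, hp⟩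
      rw [this]; simp) (fun p hp => (hAE p).1 hp)
    refine h4.trans (le_of_eq ?_)
    have hC : (0 : ℝ) < Pool.Agent.Helper45.AE.bigC := by
      exact_mod_cast Pool.Agent.Helper45.AE.bigC_pos
    have e1 : (2 : ℝ) ^ n / 4 ^ n = (4 : ℝ) ^ (-(n : ℝ) / 2) := by
      have e2 : (2 : ℝ) ^ n = (4 : ℝ) ^ ((n : ℝ) / 2) := by
        rw [show (4 : ℝ) = (2 : ℝ) ^ (2 : ℝ) by norm_num, ← Real.rpow_mul (by norm_num),
          ← Real.rpow_natCast]
        congr 1; ring
      rw [e2, ← Real.rpow_natCast 4 n, ← Real.rpow_sub (by norm_num)]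
      congr 1; ring
    rw [mul_zero, zero_add, e1, ← Real.rpow_mul (by norm_num), mul_assoc (2 * (T : ℝ) * M),
      ← Real.rpow_natCast 4 n, ← Real.rpow_add (by norm_num)]
    congr 2
    field_simp
    ring

end Pool.Agent.Results.MP_db4732_co.LiftedSets
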